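import Pool.Agent.Y847.RB.Star
import Pool.Agent.Y847.RB.Cyc

/-!
# Ramsey robustness: the sharp bound `Rob_r(H, G) ≤ e(H) / (r e(G))`

For every graph `H` with at least two edges, every number `r` of colours and every
`r`-Ramsey-minimal graph `G` for `H` we show `Rob_r(H, G) ≤ e(H) / (r e(G))`, with equality for
the cherry `K_{1,2}` and `G = K_{1,r+1}` (every `r`), and for the cherry, `r = 2` and every odd
cycle `G`.  So the robustness does not only have infimum `0`, it tends to `0` along the whole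
family `M_r(H)`, at the exact rate `1 / e(G)`.  The inequality is a statement about all critical
uniform hypergraphs.

The definitions are those of the starting file `Robustness.lean`; the factor `1 / r` comes from
recolouring the critical edge with all `r` colours: the `r` families of monochromatic copies that
arise in this way are pairwise disjoint.
-/

set_option autoImplicit false

namespace Pool.Agent.Results.MP_742028_co.SharpRobustness

open SimpleGraph Pool.Agent.Results.MP_742028_co.Robustness Y847.RB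

lemma bound {r : ℕ} (hr : 0 < r) {W V : Type} [Finite V] {H : SimpleGraph W} {G : SimpleGraph V}
    (h2 : 2 ≤ H.edgeSet.ncard) (h : RamseyMinimal r H G) :
    robustness r H G ≤ (H.edgeSet.ncard : ℝ) / (r * G.edgeSet.ncard) := by
  have h1 := key' hr h2 h
  have h3 := h.1.one_pos hr
  have h4 : 0 < G.edgeSet.ncard := by
    obtain ⟨S, hS, _⟩ := h.1 (fun _ => ⟨0, hr⟩)
    have h5 := card_edges_of_copy hS
    have h6 : S.edgeSet.ncard ≤ G.edgeSet.ncard :=
      Set.ncard_le_ncard S.edgeSet_subset (Set.toFinite _)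
    omega
  unfold robustness
  have h3' : (0 : ℝ) < multiplicity 1 H G := by exact_mod_cast h3
  have h4' : (0 : ℝ) < (r : ℝ) * G.edgeSet.ncard := by
    have : 0 < r * G.edgeSet.ncard := Nat.mul_pos hr h4
    exact_mod_cast this
  rw [div_le_div_iff₀ h3' h4']
  have h7 : ((r * multiplicity r H G * G.edgeSet.ncard : ℕ) : ℝ) ≤
      ((H.edgeSet.ncard * multiplicity 1 H G : ℕ) : ℝ) := by exact_mod_cast h1
  push_cast at h7
  linarith

lemma finitely_many {r : ℕ} (hr : 0 < r) {W : Type} [Finite W] {H : SimpleGraph W} {ε : ℝ}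
    (hε : 0 < ε) : ∃ F : Finset (Σ n : ℕ, SimpleGraph (Fin n)), ∀ (n : ℕ) (G : SimpleGraph (Fin n)),
      RamseyMinimal r H G → ε ≤ robustness r H G → ∃ P ∈ F, Nonempty (G ≃g P.2) := by
  classical
  have hW : Fintype W := Fintype.ofFinite W
  obtain ⟨K, hK⟩ : ∃ K : ℕ, (H.edgeSet.ncard : ℝ) / ε ≤ K := exists_nat_ge _
  refine ⟨(Finset.range (max (Fintype.card W) (2 * K) + 1)).sigma
    (fun n => (Finset.univ : Finset (SimpleGraph (Fin n)))), fun n G hG h3 => ?_⟩
  refine ⟨⟨n, G⟩, ?_, ⟨SimpleGraph.Iso.refl⟩⟩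
  rw [Finset.mem_sigma]
  refine ⟨?_, Finset.mem_univ _⟩
  rw [Finset.mem_range, Nat.lt_succ_iff]
  have h1 := hG.card_le
  rw [Fintype.card_fin] at h1
  refine le_trans h1 (max_le_max le_rfl (Nat.mul_le_mul_left 2 ?_))
  have h2 := hG.key hr
  have h4 : (0 : ℝ) < multiplicity 1 H G := by exact_mod_cast hG.1.one_pos hr
  unfold robustness at h3
  rw [le_div_iff₀ h4] at h3
  have h5 : (multiplicity r H G : ℝ) * G.edgeSet.ncard ≤ H.edgeSet.ncard * multiplicity 1 H G := by
    exact_mod_cast h2
  have h6 : ε * G.edgeSet.ncard ≤ H.edgeSet.ncard := by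
    have h7 : ε * multiplicity 1 H G * G.edgeSet.ncard ≤
        H.edgeSet.ncard * multiplicity 1 H G := by
      refine le_trans ?_ h5
      gcongr
    nlinarith
  have h8 : (G.edgeSet.ncard : ℝ) ≤ K := by
    refine le_trans ?_ hK
    rw [le_div_iff₀ hε]
    linarith
  exact_mod_cast h8

lemma rob_pos {r : ℕ} (hr : 0 < r) {W V : Type} [Finite V] {H : SimpleGraph W} {G : SimpleGraph V}
    (h : RamseyMinimal r H G) : 0 < robustness r H G := by
  unfold robustness
  have h1 : (0 : ℝ) < multiplicity 1 H G := by exact_mod_cast h.1.one_pos hr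
  have h2 : (0 : ℝ) < multiplicity r H G := by exact_mod_cast mult_pos hr h.1
  exact div_pos h2 h1

lemma exists_lower {α : Type} (f : α → ℝ) (T : Finset α) (h : ∀ P ∈ T, 0 < f P) :
    ∃ ε : ℝ, 0 < ε ∧ ∀ P ∈ T, ε ≤ f P := by
  classical
  induction T using Finset.induction_on with
  | empty => exact ⟨1, one_pos, by simp⟩
  | insert a s ha ih =>
    obtain ⟨ε, hε, h1⟩ := ih (fun P hP => h P (Finset.mem_insert_of_mem hP))
    refine ⟨min ε (f a), lt_min hε (h a (Finset.mem_insert_self _ _)), fun P hP => ?_⟩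
    rcases Finset.mem_insert.1 hP with rfl | hP
    · exact min_le_right _ _
    · exact (min_le_left _ _).trans (h1 P hP)

lemma finite_iff {r : ℕ} (hr : 0 < r) {W : Type} [Finite W] {H : SimpleGraph W} :
    RamseyFinite r H ↔ ∃ ε : ℝ, 0 < ε ∧ ∀ (n : ℕ) (G : SimpleGraph (Fin n)),
      RamseyMinimal r H G → ε ≤ robustness r H G := by
  classical
  constructor
  · rintro ⟨F, hF⟩
    let N : ℕ := F.sup (fun P => P.1)
    let T : Finset (Σ n : ℕ, SimpleGraph (Fin n)) := ((Finset.range (N + 1)).sigma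
      (fun n => (Finset.univ : Finset (SimpleGraph (Fin n))))).filter
      (fun P => 0 < robustness r H P.2)
    obtain ⟨ε, hε, h1⟩ := exists_lower (fun P : Σ n : ℕ, SimpleGraph (Fin n) =>
      robustness r H P.2) T (fun P hP => (Finset.mem_filter.1 hP).2)
    refine ⟨ε, hε, fun n G hG => ?_⟩
    apply h1 ⟨n, G⟩
    rw [Finset.mem_filter]
    refine ⟨?_, rob_pos hr hG⟩
    rw [Finset.mem_sigma]
    refine ⟨?_, Finset.mem_univ _⟩
    rw [Finset.mem_range, Nat.lt_succ_iff]
    obtain ⟨P, hP, ⟨φ⟩⟩ := hF n G hG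
    have h2 : n = P.1 := by
      have := Fintype.card_congr φ.toEquiv
      simpa using this
    have h3 : P.1 ≤ N := Finset.le_sup (f := fun P : Σ n : ℕ, SimpleGraph (Fin n) => P.1) hP
    exact h2.trans_le h3
  · rintro ⟨ε, hε, h⟩
    obtain ⟨F, hF⟩ := finitely_many (H := H) hr hε
    exact ⟨F, fun n G hG => hF n G hG (h n G hG)⟩

/-- **Ramsey robustness, sharp form.**

(1) For every number `r ≥ 1` of colours, every graph `H` with at least two edges and every
`r`-Ramsey-minimal graph `G` for `H`: `Rob_r(H, G) ≤ e(H) / (r e(G))`.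

(2) The bound is sharp for every `r`: `K_{1,r+1}` is `r`-Ramsey-minimal for the cherry `K_{1,2}`
(the path with three vertices) and its robustness is `2 / (r (r + 1))`.

(3) For `r = 2` and the cherry there is equality for all odd cycles, so the rate `1 / e(G)` with
the constant `e(H) / r` is attained by infinitely many Ramsey-minimal graphs of the same `H`.

(4) For every finite graph `H`, every `r ≥ 1` and every `ε > 0` only finitely many
`r`-Ramsey-minimal graphs `G` (up to isomorphism) have `Rob_r(H, G) ≥ ε`: the robustness tends to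
`0` along the family of all `r`-Ramsey-minimal graphs.

(5) `H` is `r`-Ramsey-finite if and only if `Rob_r(H, G)` is bounded away from `0`.

(6) If `H` is `r`-Ramsey-infinite, then the infimum of `Rob_r(H, G)` is `0` (the question).

(7) The inequality behind (1), for all critical uniform hypergraphs: let `ed` be the edges of an
`m`-uniform hypergraph (with multiplicities) on a finite vertex set `E`, `m ≥ 2`, such that for
every vertex `e` some `r`-colouring of `E` has all its monochromatic edges through `e`.  If `M` is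
the minimum number of monochromatic edges of an `r`-colouring, then
`r * M * |E| ≤ m * (number of edges)`. -/
theorem result :
    (∀ (r : ℕ), 0 < r → ∀ (W V : Type) [Finite V] (H : SimpleGraph W) (G : SimpleGraph V),
      2 ≤ H.edgeSet.ncard → RamseyMinimal r H G →
      robustness r H G ≤ (H.edgeSet.ncard : ℝ) / (r * G.edgeSet.ncard)) ∧
    (∀ (r : ℕ), 0 < r → RamseyMinimal r (pathGraph 3)
        (completeBipartiteGraph (Fin 1) (Fin (r + 1))) ∧
      robustness r (pathGraph 3) (completeBipartiteGraph (Fin 1) (Fin (r + 1))) =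
        ((pathGraph 3).edgeSet.ncard : ℝ) /
          (r * (completeBipartiteGraph (Fin 1) (Fin (r + 1))).edgeSet.ncard) ∧
      robustness r (pathGraph 3) (completeBipartiteGraph (Fin 1) (Fin (r + 1))) =
        2 / ((r : ℝ) * (r + 1))) ∧
    (∀ (k : ℕ), RamseyMinimal 2 (pathGraph 3) (cycleGraph (2 * k + 3)) ∧
      robustness 2 (pathGraph 3) (cycleGraph (2 * k + 3)) =
        ((pathGraph 3).edgeSet.ncard : ℝ) / (2 * (cycleGraph (2 * k + 3)).edgeSet.ncard) ∧
      robustness 2 (pathGraph 3) (cycleGraph (2 * k + 3)) = 1 / (2 * (k : ℝ) + 3)) ∧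
    (∀ (r : ℕ), 0 < r → ∀ (W : Type) [Finite W] (H : SimpleGraph W) (ε : ℝ), 0 < ε →
      ∃ F : Finset (Σ n : ℕ, SimpleGraph (Fin n)), ∀ (n : ℕ) (G : SimpleGraph (Fin n)),
        RamseyMinimal r H G → ε ≤ robustness r H G → ∃ P ∈ F, Nonempty (G ≃g P.2)) ∧
    (∀ (r : ℕ), 0 < r → ∀ (W : Type) [Finite W] (H : SimpleGraph W),
      RamseyFinite r H ↔ ∃ ε : ℝ, 0 < ε ∧ ∀ (n : ℕ) (G : SimpleGraph (Fin n)),
        RamseyMinimal r H G → ε ≤ robustness r H G) ∧
    (∀ (r : ℕ), 2 ≤ r → ∀ (W : Type) [Finite W] (H : SimpleGraph W), ¬ RamseyFinite r H →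
      sInf {x : ℝ | ∃ (n : ℕ) (G : SimpleGraph (Fin n)), RamseyMinimal r H G ∧
        x = robustness r H G} = 0) ∧
    (∀ (ι E : Type) [Fintype ι] [Fintype E] [DecidableEq E] (ed : ι → Finset E) (m r : ℕ),
      (∀ s, (ed s).card = m) → 2 ≤ m →
      (∀ e : E, ∃ c : E → Fin r, ∀ s, (∃ i, ∀ x ∈ ed s, c x = i) → e ∈ ed s) →
      r * (⨅ c : E → Fin r, {s : ι | ∃ i, ∀ x ∈ ed s, c x = i}.ncard) * Fintype.card E
        ≤ m * Fintype.card ι) := by
  refine ⟨fun r hr W V _ H G h2 h => bound hr h2 h, fun r hr => ⟨st_minimal r hr, ?_, ?_⟩,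
    fun k => ⟨cyc_minimal k, ?_, ?_⟩, fun r hr W _ H ε hε => finitely_many hr hε,
    fun r hr W _ H => finite_iff hr, fun r hr W _ H hH => Robustness.result r hr W H hH,
    fun ι E _ _ _ ed m r hm h2 hc => hyper ed m r hm h2 hc⟩
  · rw [st_robust r hr, P3_edges, st_edges_ncard]
    norm_num
  · rw [st_robust r hr]
    push_cast
    rfl
  · rw [cyc_robust k, P3_edges, cyc_edges_ncard]
    norm_num
  · rw [cyc_robust k]
    push_cast
    field_simp

end Pool.Agent.Results.MP_742028_co.SharpRobustness
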